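import Pool.Agent.Helper62.MU.St2

set_option autoImplicit false

open MeasureTheory Metric Set Filter Topology Polynomial
open scoped RealInnerProductSpace ContDiff

namespace Pool.Agent.Helper91.MU

open Pool.Agent.Helper62.MU2 Pool.Agent.Helper62.Mink

theorem fx_eval (m : ℕ) (a t : ℝ) :
    (fx m a).eval t = a ^ 2 - (2 * a * ((m : ℝ) + 3) / 3) * t ^ 2 + (((m : ℝ) + 3) * ((m : ℝ) + 5) / 15) * t ^ 4 := by
  simp only [fx, eval_add, eval_sub, eval_mul, eval_C, eval_pow, eval_X]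

theorem hNU : StNU := by
  intro m hm
  have hm1 : (1 : ℝ) ≤ m := by exact_mod_cast hm
  obtain ⟨N, hN⟩ : ∃ N : ℝ, N = (m : ℝ) + 5 := ⟨_, rfl⟩
  have hN6 : 6 ≤ N := by linarith
  obtain ⟨a, ha⟩ : ∃ a : ℝ, a = 1 / (10 * N) := ⟨_, rfl⟩
  obtain ⟨b, hb⟩ : ∃ b : ℝ, b = Real.sqrt (1 / (2 * N ^ 2)) := ⟨_, rfl⟩
  have hb2 : b ^ 2 = 1 / (2 * N ^ 2) := by rw [hb]; exact Real.sq_sqrt (by positivity)
  have hb0 : 0 < b := by rw [hb]; exact Real.sqrt_pos.2 (by positivity)
  have hN2 : 36 ≤ N ^ 2 := by nlinarith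
  have hb72 : b ^ 2 ≤ 1 / 72 := by
    rw [hb2]
    exact one_div_le_one_div_of_le (by norm_num) (by linarith)
  have hb1 : b ≤ 1 := by nlinarith
  have ha0 : 0 < a := by rw [ha]; positivity
  have hab : b ^ 2 = 5 * a / N := by rw [hb2, ha]; field_simp; ring
  have haN : a * (10 * N) = 1 := by rw [ha]; field_simp
  have hbN : b ^ 2 * N = 5 * a := by rw [hab]; field_simp
  obtain ⟨s, hs⟩ : ∃ s : ℝ, s = Real.sqrt (1 - b ^ 2) := ⟨_, rfl⟩
  have hs0 : 0 ≤ s := by rw [hs]; exact Real.sqrt_nonneg _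
  have hs2 : s ^ 2 = 1 - b ^ 2 := by rw [hs]; exact Real.sq_sqrt (by linarith)
  have hs1 : s ≤ 1 := by nlinarith [sq_nonneg b]
  have hsb : 1 - b ^ 2 ≤ s := by nlinarith
  have hsm : 9 / 10 ≤ s ^ m := by
    have h1 : (1 - b ^ 2) ^ m ≤ s ^ m := pow_le_pow_left₀ (by linarith) hsb m
    have h2 : 1 + (m : ℝ) * (-b ^ 2) ≤ (1 + (-b ^ 2)) ^ m :=
      one_add_mul_le_pow (by linarith) m
    have h3 : (m : ℝ) * b ^ 2 ≤ 1 / 10 := by
      rw [hb2, mul_one_div, div_le_iff₀ (by positivity)]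
      nlinarith
    have h4 : (1 + (-b ^ 2)) ^ m = (1 - b ^ 2) ^ m := by ring_nf
    rw [h4] at h2
    linarith
  have hcos : Real.cos (Real.arccos b) = b := Real.cos_arccos (by linarith) hb1
  have hsin : Real.sin (Real.arccos b) = s := by rw [Real.sin_arccos, hs]
  refine ⟨Real.arccos b, Real.arccos_nonneg b, Real.arccos_lt_pi_div_two.2 hb0, ?_⟩
  have hβ0 := Real.arccos_nonneg b
  have hβ2 : Real.arccos b < Real.pi / 2 := Real.arccos_lt_pi_div_two.2 hb0
  unfold DCe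
  rw [← hN, ← ha]
  simp only [Real.cos_pi_sub, Real.sin_pi_sub, hcos, hsin, fx_eval]
  -- the integral
  have hI : (∫ θ in Real.arccos b..(Real.pi - Real.arccos b),
      (a ^ 2 - (2 * a * ((m : ℝ) + 3) / 3) * Real.cos θ ^ 2 + (((m : ℝ) + 3) * ((m : ℝ) + 5) / 15) * Real.cos θ ^ 4) *
        Real.sin θ ^ (m - 1)) ≤ a ^ 2 * (Real.pi * b) := by
    have hle : Real.arccos b ≤ Real.pi - Real.arccos b := by linarith
    have h1 : (∫ θ in Real.arccos b..(Real.pi - Real.arccos b),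
      (a ^ 2 - (2 * a * ((m : ℝ) + 3) / 3) * Real.cos θ ^ 2 + (((m : ℝ) + 3) * ((m : ℝ) + 5) / 15) * Real.cos θ ^ 4) *
        Real.sin θ ^ (m - 1)) ≤ ∫ θ in Real.arccos b..(Real.pi - Real.arccos b), a ^ 2 := by
      apply intervalIntegral.integral_mono_on hle
      · apply Continuous.intervalIntegrable
        fun_prop
      · exact intervalIntegrable_const
      · intro θ hθ
        have hθπ : θ ≤ Real.pi := by linarith [hθ.2]
        have hθ0 : 0 ≤ θ := by linarith [hθ.1]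
        have c1 : Real.cos θ ≤ b := by
          have := Real.cos_le_cos_of_nonneg_of_le_pi hβ0 hθπ hθ.1
          rwa [hcos] at this
        have c2 : -b ≤ Real.cos θ := by
          have := Real.cos_le_cos_of_nonneg_of_le_pi hθ0 (by linarith) hθ.2
          rwa [Real.cos_pi_sub, hcos] at this
        have c3 : Real.cos θ ^ 2 ≤ b ^ 2 := by nlinarith
        have hsn : 0 ≤ Real.sin θ := Real.sin_nonneg_of_nonneg_of_le_pi hθ0 hθπ
        have hs01 : Real.sin θ ^ (m - 1) ≤ 1 := pow_le_one₀ hsn (Real.sin_le_one θ)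
        have hs00 : 0 ≤ Real.sin θ ^ (m - 1) := pow_nonneg hsn _
        have hf : a ^ 2 - (2 * a * ((m : ℝ) + 3) / 3) * Real.cos θ ^ 2 + (((m : ℝ) + 3) * ((m : ℝ) + 5) / 15) * Real.cos θ ^ 4
            ≤ a ^ 2 := by
          have e1 : a ^ 2 - (2 * a * ((m : ℝ) + 3) / 3) * Real.cos θ ^ 2 + (((m : ℝ) + 3) * ((m : ℝ) + 5) / 15) * Real.cos θ ^ 4
            = a ^ 2 + Real.cos θ ^ 2 * ((m : ℝ) + 3) * (-(2 * a) / 3 + N * Real.cos θ ^ 2 / 15) := by
            rw [hN]; ring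
          rw [e1]
          have e2 : N * Real.cos θ ^ 2 ≤ 5 * a := by
            have : N * Real.cos θ ^ 2 ≤ N * b ^ 2 := mul_le_mul_of_nonneg_left c3 (by linarith)
            linarith
          have e3 : -(2 * a) / 3 + N * Real.cos θ ^ 2 / 15 ≤ 0 := by linarith
          have e4 : 0 ≤ Real.cos θ ^ 2 * ((m : ℝ) + 3) := mul_nonneg (sq_nonneg _) (by linarith)
          have := mul_nonneg e4 (neg_nonneg.2 e3)
          linarith
        calc _ ≤ a ^ 2 * Real.sin θ ^ (m - 1) := mul_le_mul_of_nonneg_right hf hs00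
          _ ≤ a ^ 2 * 1 := mul_le_mul_of_nonneg_left hs01 (sq_nonneg a)
          _ = a ^ 2 := mul_one _
    have h2 : (∫ θ in Real.arccos b..(Real.pi - Real.arccos b), a ^ 2) =
        (Real.pi - Real.arccos b - Real.arccos b) * a ^ 2 := by
      rw [intervalIntegral.integral_const, smul_eq_mul]
    have h3 : Real.pi - Real.arccos b - Real.arccos b ≤ Real.pi * b := by
      have h4 : Real.arccos b = Real.pi / 2 - Real.arcsin b := Real.arccos_eq_pi_div_two_sub_arcsin b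
      have h5 : Real.arcsin b ≤ Real.pi / 2 * b := by
        have h6 := Real.mul_le_sin (x := Real.arcsin b) (Real.arcsin_nonneg.2 hb0.le) (Real.arcsin_le_pi_div_two b)
        rw [Real.sin_arcsin (by linarith) hb1] at h6
        have hpi := Real.pi_pos
        rw [div_mul_eq_mul_div, div_le_iff₀ hpi] at h6
        linarith
      rw [h4]; linarith
    calc _ ≤ _ := h1
      _ = (Real.pi - Real.arccos b - Real.arccos b) * a ^ 2 := h2
      _ ≤ (Real.pi * b) * a ^ 2 := mul_le_mul_of_nonneg_right h3 (sq_nonneg a)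
      _ = _ := by ring
  -- value at b
  have hfb : a ^ 2 - (2 * a * ((m : ℝ) + 3) / 3) * b ^ 2 + (((m : ℝ) + 3) * ((m : ℝ) + 5) / 15) * b ^ 4 =
      -(2 * m * a ^ 2) / (3 * N) := by
    have hN0 : N ≠ 0 := by positivity
    have e : b ^ 4 = (b ^ 2) ^ 2 := by ring
    rw [e, hab, ← hN]
    have hm' : (m : ℝ) = N - 5 := by linarith
    rw [hm']
    field_simp
    ring
  have hneg2 : (-b) ^ 2 = b ^ 2 := by ring
  have hneg4 : (-b) ^ 4 = b ^ 4 := by ring
  rw [hneg2, hneg4, hfb]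
  have hpi : Real.pi < 4 := Real.pi_lt_four
  have hmI := mul_le_mul_of_nonneg_left hI (show (0 : ℝ) ≤ m by linarith)
  have key : -(2 * m * a ^ 2) / (3 * N) * s ^ m / b - -(2 * m * a ^ 2) / (3 * N) * s ^ m / -b =
      -((m : ℝ) * a ^ 2 / b) * (4 / (3 * N) * s ^ m) := by
    field_simp
    ring
  rw [key]
  have hP : (m : ℝ) * (a ^ 2 * (Real.pi * b)) = (m * a ^ 2 / b) * (Real.pi * b ^ 2) := by
    field_simp
  rw [hP] at hmI
  have hQ : Real.pi * b ^ 2 < 4 / (3 * N) * s ^ m := by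
    have h1 : 4 / (3 * N) * (9 / 10) ≤ 4 / (3 * N) * s ^ m :=
      mul_le_mul_of_nonneg_left hsm (by positivity)
    have h2 : Real.pi * b ^ 2 < 4 / (3 * N) * (9 / 10) := by
      rw [hb2, mul_one_div, div_mul_eq_mul_div, div_lt_div_iff₀ (by positivity) (by positivity)]
      nlinarith [Real.pi_pos]
    linarith
  have hpos : 0 < (m : ℝ) * a ^ 2 / b := by positivity
  have := mul_lt_mul_of_pos_left hQ hpos
  linarith

end Pool.Agent.Helper91.MU
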